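import Pool.Agent.helper306_pert.Main
import Pool.Agent.helper306_pert.Lower

/-!
# MP_45c923_nt: Waring's problem for randomly perturbed `k`-th powers

Every `k`-th power `n ^ k` is moved to the right by an independent random amount `U n`, which is uniform
on `[0, h n)`, where `n ^ θ ≤ h n ≤ n ^ (k - 1)`. Almost surely every large integer is a sum of at most
`s` distinct perturbed powers, as soon as `(1 - 1 / k) ^ (s - ⌈θ⌉) < θ / k`, in particular if
`s ≥ k log (k / θ) + ⌈θ⌉`; and `k` terms are never enough. So if `θ = δ k` for a fixed `δ`, the order of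
magnitude of the number of summands is `k`, and for `θ = k - 1` the number is exactly `k + 1`.

Proof: `t = s - ⌈θ⌉` steps of the greedy algorithm represent every `y` up to an error
`O (y ^ ((1 - 1 / k) ^ t))`, which is smaller than the size of the perturbations. Then every further
summand reduces the largest gap between the sums by a factor `y ^ (1 / k - ε)`, with a probability of
failure that is summable, and after `⌈θ⌉` such summands no gap is left.
-/

set_option autoImplicit false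

namespace Pool.Agent.Results.MP_45c923_nt.PerturbedPowers

open MeasureTheory ProbabilityTheory Filter Pool.Agent.helper306_pert

theorem result {Ω : Type*} [MeasurableSpace Ω] (P : Measure Ω) [IsProbabilityMeasure P]
    (k : ℕ) (hk : 2 ≤ k) (θ : ℝ) (hθ : 0 < θ) (h : ℕ → ℕ)
    (hh : ∀ n : ℕ, 1 ≤ n → (n : ℝ) ^ θ ≤ h n ∧ h n ≤ n ^ (k - 1))
    (U : ℕ → Ω → ℕ) (hU : ∀ n, Measurable (U n)) (hind : iIndepFun U P)
    (hunif : ∀ n, 1 ≤ n → ∀ j < h n, P {ω | U n ω = j} = (h n : ENNReal)⁻¹)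
    (s : ℕ)
    (hs : (⌈θ⌉₊ ≤ s ∧ (1 - 1 / (k : ℝ)) ^ (s - ⌈θ⌉₊) < θ / k) ∨
      (k : ℝ) * Real.log (k / θ) + ⌈θ⌉₊ ≤ s) :
    (∀ᵐ ω ∂P, ∀ᶠ m : ℕ in atTop, ∃ S : Finset ℕ, (∀ n ∈ S, 1 ≤ n) ∧ S.card ≤ s ∧
      ∑ n ∈ S, (n ^ k + U n ω) = m) ∧
    (∀ ω, ∃ᶠ m : ℕ in atTop, ¬ ∃ S : Multiset ℕ, (∀ n ∈ S, 1 ≤ n) ∧ S.card ≤ k ∧
      (S.map (fun n => n ^ k + U n ω)).sum = m) := by
  refine ⟨?_, fun ω => lower k hk _ fun n _ => Nat.le_add_right _ _⟩
  have hkr : (2 : ℝ) ≤ k := by exact_mod_cast hk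
  have hk0 : (0 : ℝ) < k := by linarith
  -- `θ < k`
  have hθk : θ < k := by
    obtain ⟨h1, h2⟩ := hh 2 (by norm_num)
    have h3 : ((2 : ℕ) : ℝ) ^ θ ≤ ((2 : ℕ) : ℝ) ^ ((k - 1 : ℕ) : ℝ) := by
      rw [Real.rpow_natCast]
      exact h1.trans (by exact_mod_cast h2)
    have h4 : θ ≤ ((k - 1 : ℕ) : ℝ) :=
      (Real.rpow_le_rpow_left_iff (by norm_num)).1 h3
    have h5 : ((k - 1 : ℕ) : ℝ) < k := by
      have : k - 1 < k := by omega
      exact_mod_cast this
    linarith
  have hs' : ⌈θ⌉₊ ≤ s ∧ (1 - 1 / (k : ℝ)) ^ (s - ⌈θ⌉₊) < θ / k := by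
    rcases hs with hs | hs
    · exact hs
    · have hlog : 0 < Real.log (k / θ) := Real.log_pos (by
        rw [one_lt_div hθ]; exact hθk)
      have h1 : (⌈θ⌉₊ : ℝ) ≤ s := by
        have : 0 < (k : ℝ) * Real.log (k / θ) := by positivity
        linarith
      have h2 : ⌈θ⌉₊ ≤ s := by exact_mod_cast h1
      refine ⟨h2, ?_⟩
      set t := s - ⌈θ⌉₊ with ht
      have ht1 : ((t : ℕ) : ℝ) = s - ⌈θ⌉₊ := by rw [ht, Nat.cast_sub h2]
      have ht2 : (k : ℝ) * Real.log (k / θ) ≤ t := by rw [ht1]; linarith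
      have ht3 : t ≠ 0 := by
        intro h0
        rw [h0] at ht2
        have : 0 < (k : ℝ) * Real.log (k / θ) := by positivity
        simp at ht2
        linarith
      have h3 : 1 - 1 / (k : ℝ) < Real.exp (-(1 / (k : ℝ))) := by
        have h4 : -(1 / (k : ℝ)) ≠ 0 := by
          have : 0 < 1 / (k : ℝ) := by positivity
          linarith
        have := Real.add_one_lt_exp h4
        linarith
      have h5 : 0 ≤ 1 - 1 / (k : ℝ) := by
        have : 1 / (k : ℝ) ≤ 1 := by
          rw [div_le_one (by positivity)]; linarith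
        linarith
      calc (1 - 1 / (k : ℝ)) ^ t < Real.exp (-(1 / (k : ℝ))) ^ t :=
            pow_lt_pow_left₀ h3 h5 ht3
        _ = Real.exp (-(t / k)) := by
            rw [← Real.exp_nat_mul]; congr 1; ring
        _ ≤ Real.exp (-Real.log (k / θ)) := by
            refine Real.exp_le_exp.mpr ?_
            have : Real.log (k / θ) ≤ t / k := by
              rw [le_div_iff₀ hk0]; linarith
            linarith
        _ = θ / k := by
            rw [Real.exp_neg, Real.exp_log (by positivity), inv_div]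
  have hm := main P U hU hind k hk θ hθ (s - ⌈θ⌉₊) hs'.2 h hh hunif
  have hsum : s - ⌈θ⌉₊ + ⌈θ⌉₊ = s := Nat.sub_add_cancel hs'.1
  rw [hsum] at hm
  exact hm

end Pool.Agent.Results.MP_45c923_nt.PerturbedPowers
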